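import Mathlib

/-! # Essential extreme points: the abstract part -/

namespace Pool.Agent.ProfEP

/-- points below a convex combination of `f 0, ..., f R` -/
def Below {m : ℕ} (f : ℕ → Fin m → ℝ) (R : ℕ) : Set (Fin m → ℝ) :=
  {p | ∃ w : ℕ → ℝ, (∀ i, 0 ≤ w i) ∧ ∑ i ∈ Finset.range (R + 1), w i = 1 ∧
    ∀ j, p j ≤ ∑ i ∈ Finset.range (R + 1), w i * f i j}

theorem below_convex {m : ℕ} (f : ℕ → Fin m → ℝ) (R : ℕ) : Convex ℝ (Below f R) := by
  intro p hp q hq a b ha hb hab
  obtain ⟨w, hw0, hw1, hw⟩ := hp
  obtain ⟨v, hv0, hv1, hv⟩ := hq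
  refine ⟨fun i => a * w i + b * v i, fun i => ?_, ?_, fun j => ?_⟩
  · exact add_nonneg (mul_nonneg ha (hw0 i)) (mul_nonneg hb (hv0 i))
  · rw [Finset.sum_add_distrib, ← Finset.mul_sum, ← Finset.mul_sum, hw1, hv1, mul_one, mul_one, hab]
  · have h1 : ∑ i ∈ Finset.range (R + 1), (a * w i + b * v i) * f i j =
        a * ∑ i ∈ Finset.range (R + 1), w i * f i j +
          b * ∑ i ∈ Finset.range (R + 1), v i * f i j := by
      rw [Finset.mul_sum, Finset.mul_sum, ← Finset.sum_add_distrib]
      exact Finset.sum_congr rfl (fun i _ => by ring)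
    rw [h1, Pi.add_apply, Pi.smul_apply, Pi.smul_apply, smul_eq_mul, smul_eq_mul]
    exact add_le_add (mul_le_mul_of_nonneg_left (hw j) ha) (mul_le_mul_of_nonneg_left (hv j) hb)

/-- at the separating coordinate of `f r`, everything is at most `f r`, with equality only for
points below `f r` -/
theorem below_sep {m : ℕ} {f : ℕ → Fin m → ℝ} {R r : ℕ} (hr : r ≤ R) {j₀ : Fin m}
    (hj : ∀ r' ≤ R, r' ≠ r → f r' j₀ < f r j₀) {x : Fin m → ℝ} (hx : x ∈ Below f R) :
    x j₀ ≤ f r j₀ ∧ (f r j₀ ≤ x j₀ → x ≤ f r) := by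
  obtain ⟨w, hw0, hw1, hw⟩ := hx
  have hterm : ∀ i ∈ Finset.range (R + 1), 0 ≤ w i * (f r j₀ - f i j₀) := by
    intro i hi
    rw [Finset.mem_range] at hi
    refine mul_nonneg (hw0 i) ?_
    by_cases hir : i = r
    · rw [hir, sub_self]
    · exact (sub_pos.2 (hj i (by omega) hir)).le
  have hsum : ∑ i ∈ Finset.range (R + 1), w i * (f r j₀ - f i j₀) =
      f r j₀ - ∑ i ∈ Finset.range (R + 1), w i * f i j₀ := by
    have h1 : ∀ i, w i * (f r j₀ - f i j₀) = w i * f r j₀ - w i * f i j₀ := fun i => by ring
    simp_rw [h1]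
    rw [Finset.sum_sub_distrib, ← Finset.sum_mul, hw1, one_mul]
  have hnn := Finset.sum_nonneg hterm
  have h2 := hw j₀
  refine ⟨by linarith, fun hle => ?_⟩
  have hz : ∑ i ∈ Finset.range (R + 1), w i * (f r j₀ - f i j₀) = 0 := by linarith
  rw [Finset.sum_eq_zero_iff_of_nonneg hterm] at hz
  have hwz : ∀ i ∈ Finset.range (R + 1), i ≠ r → w i = 0 := by
    intro i hi hir
    have h3 := hz i hi
    rw [Finset.mem_range] at hi
    rcases mul_eq_zero.1 h3 with h4 | h4
    · exact h4
    · have := hj i (by omega) hir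
      linarith
  have hrm : r ∈ Finset.range (R + 1) := Finset.mem_range.2 (by omega)
  have hwr : w r = 1 := by
    rw [← hw1]
    exact (Finset.sum_eq_single_of_mem r hrm hwz).symm
  intro j
  have h5 := hw j
  rwa [Finset.sum_eq_single_of_mem r hrm (fun i hi hir => by rw [hwz i hi hir, zero_mul]), hwr,
    one_mul] at h5

/-- zeroing of the coordinates outside `S` -/
def zer {m : ℕ} (S : Finset (Fin m)) (x : Fin m → ℝ) : Fin m → ℝ :=
  fun i => if i ∈ S then x i else 0

theorem zer_sum {m : ℕ} (S : Finset (Fin m)) (w : ℕ → ℝ) (f : ℕ → Fin m → ℝ) (T : Finset ℕ) :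
    zer S (fun j => ∑ i ∈ T, w i * f i j) = ∑ i ∈ T, w i • zer S (f i) := by
  funext j
  rw [Finset.sum_apply]
  unfold zer
  by_cases hj : j ∈ S
  · simp [hj]
  · simp [hj]

/-- **CONV.** -/
theorem conv_main {m : ℕ} (P : Set (Fin m → ℝ)) (f : ℕ → Fin m → ℝ) (R : ℕ)
    (h0 : ∀ p ∈ P, 0 ≤ p)
    (h1 : ∀ r ≤ R, ∀ S : Finset (Fin m), zer S (f r) ∈ P)
    (h2 : ∀ p ∈ P, p ∈ Below f R)
    (h3 : ∀ r ≤ R, ∃ j, ∀ r' ≤ R, r' ≠ r → f r' j < f r j) :
    {p | p ∈ (convexHull ℝ P).extremePoints ℝ ∧
      ∀ q ∈ (convexHull ℝ P).extremePoints ℝ, p ≤ q → q = p} = {p | ∃ r ≤ R, p = f r} := by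
  have hKB : convexHull ℝ P ⊆ Below f R := convexHull_min h2 (below_convex f R)
  have hfP : ∀ r ≤ R, f r ∈ P := by
    intro r hr
    have := h1 r hr Finset.univ
    have h4 : zer Finset.univ (f r) = f r := by
      funext i
      simp [zer]
    rwa [h4] at this
  have hfext : ∀ r ≤ R, f r ∈ (convexHull ℝ P).extremePoints ℝ := by
    intro r hr
    obtain ⟨j₀, hj⟩ := h3 r hr
    rw [mem_extremePoints]
    refine ⟨subset_convexHull ℝ P (hfP r hr), fun x₁ hx₁ x₂ hx₂ hseg => ?_⟩
    obtain ⟨a, b, ha, hb, hab, habx⟩ := hseg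
    have e1 := below_sep hr hj (hKB hx₁)
    have e2 := below_sep hr hj (hKB hx₂)
    have e3 : ∀ j, a * x₁ j + b * x₂ j = f r j := by
      intro j
      rw [← habx]
      rfl
    have e4 := e3 j₀
    have hb' : b = 1 - a := by linarith
    have e5 : x₁ j₀ = f r j₀ := by
      refine le_antisymm e1.1 ?_
      by_contra hcon
      rw [not_le] at hcon
      have : a * x₁ j₀ < a * f r j₀ := mul_lt_mul_of_pos_left hcon ha
      have : b * x₂ j₀ ≤ b * f r j₀ := mul_le_mul_of_nonneg_left e2.1 hb.le
      have : a * f r j₀ + b * f r j₀ = f r j₀ := by rw [← add_mul, hab, one_mul]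
      linarith
    have e6 : x₂ j₀ = f r j₀ := by
      refine le_antisymm e2.1 ?_
      by_contra hcon
      rw [not_le] at hcon
      have : b * x₂ j₀ < b * f r j₀ := mul_lt_mul_of_pos_left hcon hb
      have : a * x₁ j₀ ≤ a * f r j₀ := mul_le_mul_of_nonneg_left e1.1 ha.le
      have : a * f r j₀ + b * f r j₀ = f r j₀ := by rw [← add_mul, hab, one_mul]
      linarith
    have g1 := e1.2 e5.ge
    have g2 := e2.2 e6.ge
    constructor
    · funext j
      refine le_antisymm (g1 j) ?_
      by_contra hcon
      rw [not_le] at hcon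
      have : a * x₁ j < a * f r j := mul_lt_mul_of_pos_left hcon ha
      have : b * x₂ j ≤ b * f r j := mul_le_mul_of_nonneg_left (g2 j) hb.le
      have : a * f r j + b * f r j = f r j := by rw [← add_mul, hab, one_mul]
      have := e3 j
      linarith
    · funext j
      refine le_antisymm (g2 j) ?_
      by_contra hcon
      rw [not_le] at hcon
      have : b * x₂ j < b * f r j := mul_lt_mul_of_pos_left hcon hb
      have : a * x₁ j ≤ a * f r j := mul_le_mul_of_nonneg_left (g1 j) ha.le
      have : a * f r j + b * f r j = f r j := by rw [← add_mul, hab, one_mul]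
      have := e3 j
      linarith
  have hfmax : ∀ r ≤ R, ∀ q ∈ convexHull ℝ P, f r ≤ q → q = f r := by
    intro r hr q hq hle
    obtain ⟨j₀, hj⟩ := h3 r hr
    exact le_antisymm ((below_sep hr hj (hKB hq)).2 (hle j₀)) hle
  ext p
  constructor
  · rintro ⟨hp, hpmax⟩
    have hpP : p ∈ P := extremePoints_convexHull_subset hp
    have hp0 := h0 p hpP
    obtain ⟨w, hw0, hw1, hw⟩ := h2 p hpP
    obtain ⟨y, hy⟩ : ∃ y : Fin m → ℝ, y = fun j => ∑ i ∈ Finset.range (R + 1), w i * f i j :=
      ⟨_, rfl⟩
    have hpy : ∀ j, p j ≤ y j := fun j => by rw [hy]; exact hw j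
    have hzy : ∀ S, zer S y ∈ convexHull ℝ P := by
      intro S
      rw [hy, zer_sum]
      refine (convex_convexHull ℝ P).sum_mem (fun i _ => hw0 i) hw1 (fun i hi => ?_)
      rw [Finset.mem_range] at hi
      exact subset_convexHull ℝ P (h1 i (by omega) S)
    have hbox : ∀ x : Fin m → ℝ, (∀ j, 0 ≤ x j) → (∀ j, x j ≤ y j) → x ∈ convexHull ℝ P := by
      intro x hx0 hxy
      have e1 : x ∈ convexHull ℝ (Set.univ.pi (fun j => ({0, y j} : Set ℝ))) := by
        rw [convexHull_pi, Set.mem_univ_pi]
        intro j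
        rw [convexHull_pair, segment_eq_Icc ((hx0 j).trans (hxy j))]
        exact ⟨hx0 j, hxy j⟩
      refine convexHull_min ?_ (convex_convexHull ℝ P) e1
      intro z hz
      rw [Set.mem_univ_pi] at hz
      have e2 : z = zer (Finset.univ.filter (fun j => z j ≠ 0)) y := by
        funext j
        unfold zer
        by_cases hzj : z j = 0
        · simp [hzj]
        · rw [if_pos (by simp [hzj])]
          rcases hz j with h4 | h4
          · exact absurd h4 hzj
          · exact h4
      rw [e2]
      exact hzy _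
    have hcoord : ∀ j, p j = 0 ∨ p j = y j := by
      intro j
      by_contra hcon
      rw [not_or] at hcon
      have g1 : 0 < p j := lt_of_le_of_ne (hp0 j) (Ne.symm hcon.1)
      have g2 : p j < y j := lt_of_le_of_ne (hpy j) hcon.2
      obtain ⟨e, he⟩ : ∃ e, e = min (p j) (y j - p j) := ⟨_, rfl⟩
      have he0 : 0 < e := by
        rw [he]
        exact lt_min g1 (by linarith)
      have he1 : e ≤ p j := he ▸ min_le_left _ _
      have he2 : e ≤ y j - p j := he ▸ min_le_right _ _
      have hx1 : Function.update p j (p j + e) ∈ convexHull ℝ P := by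
        refine hbox _ (fun i => ?_) (fun i => ?_)
        · by_cases hij : i = j
          · subst hij
            rw [Function.update_self]
            linarith
          · rw [Function.update_of_ne hij]
            exact hp0 i
        · by_cases hij : i = j
          · subst hij
            rw [Function.update_self]
            linarith
          · rw [Function.update_of_ne hij]
            exact hpy i
      have hx2 : Function.update p j (p j - e) ∈ convexHull ℝ P := by
        refine hbox _ (fun i => ?_) (fun i => ?_)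
        · by_cases hij : i = j
          · subst hij
            rw [Function.update_self]
            linarith
          · rw [Function.update_of_ne hij]
            exact hp0 i
        · by_cases hij : i = j
          · subst hij
            rw [Function.update_self]
            linarith
          · rw [Function.update_of_ne hij]
            exact hpy i
      have hseg : p ∈ openSegment ℝ (Function.update p j (p j + e))
          (Function.update p j (p j - e)) := by
        refine ⟨1 / 2, 1 / 2, by norm_num, by norm_num, by norm_num, ?_⟩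
        funext i
        rw [Pi.add_apply, Pi.smul_apply, Pi.smul_apply, smul_eq_mul, smul_eq_mul]
        by_cases hij : i = j
        · subst hij
          rw [Function.update_self, Function.update_self]
          ring
        · rw [Function.update_of_ne hij, Function.update_of_ne hij]
          ring
      have h4 := ((mem_extremePoints.1 hp).2 _ hx1 _ hx2 hseg).1
      have h5 := congrFun h4 j
      rw [Function.update_self] at h5
      linarith
    obtain ⟨S, hS⟩ : ∃ S : Finset (Fin m), p = zer S y := by
      refine ⟨Finset.univ.filter (fun j => p j ≠ 0), ?_⟩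
      funext j
      unfold zer
      by_cases hpj : p j = 0
      · simp [hpj]
      · rw [if_pos (by simp [hpj])]
        exact (hcoord j).resolve_left hpj
    obtain ⟨T, hT⟩ : ∃ T : Set (Fin m → ℝ), T = {x | ∃ r ≤ R, x = zer S (f r)} := ⟨_, rfl⟩
    have hTP : T ⊆ P := by
      rw [hT]
      rintro x ⟨r, hr, rfl⟩
      exact h1 r hr S
    have hpT : p ∈ convexHull ℝ T := by
      rw [hS, hy, zer_sum]
      refine (convex_convexHull ℝ T).sum_mem (fun i _ => hw0 i) hw1 (fun i hi => ?_)
      rw [Finset.mem_range] at hi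
      refine subset_convexHull ℝ T ?_
      rw [hT]
      exact ⟨i, by omega, rfl⟩
    have hpe : p ∈ (convexHull ℝ T).extremePoints ℝ :=
      inter_extremePoints_subset_extremePoints_of_subset (convexHull_mono hTP) ⟨hpT, hp⟩
    have hpT' := extremePoints_convexHull_subset hpe
    rw [hT] at hpT'
    obtain ⟨r, hr, hpr⟩ := hpT'
    have hle : p ≤ f r := by
      intro j
      rw [hpr]
      unfold zer
      split_ifs
      · exact le_rfl
      · exact h0 _ (hfP r hr) j
    exact ⟨r, hr, (hpmax _ (hfext r hr) hle).symm⟩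
  · rintro ⟨r, hr, rfl⟩
    exact ⟨hfext r hr, fun q hq hle => hfmax r hr q (extremePoints_subset hq) hle⟩

end Pool.Agent.ProfEP
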