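import Pool.Agent.Lib_MP_05ae4a_ep.Defs

/-! # Counting lemmas -/

namespace Pool.Agent.ProfEP

theorem bin_step {c N r j : ℕ} (h : c * r + r ≤ N) (hj : j + 1 ≤ r) :
    c * N.choose j ≤ N.choose (j + 1) := by
  have h1 := Nat.choose_succ_right_eq N j
  have h2 : c * (j + 1) ≤ N - j := by
    have : c * (j + 1) ≤ c * r := Nat.mul_le_mul_left c hj
    omega
  have h3 : (c * N.choose j) * (j + 1) ≤ N.choose (j + 1) * (j + 1) := by
    rw [h1]
    calc c * N.choose j * (j + 1) = N.choose j * (c * (j + 1)) := by ring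
      _ ≤ N.choose j * (N - j) := Nat.mul_le_mul_left _ h2
  exact Nat.le_of_mul_le_mul_right h3 (Nat.succ_pos j)

theorem bin_pow {c N r : ℕ} (h : c * r + r ≤ N) : ∀ v ≤ r, c ^ v * N.choose (r - v) ≤ N.choose r := by
  intro v
  induction v with
  | zero =>
    intro _
    simp
  | succ v ih =>
    intro hv
    have h1 := bin_step h (j := r - (v + 1)) (by omega)
    have h2 : r - (v + 1) + 1 = r - v := by omega
    rw [h2] at h1
    calc c ^ (v + 1) * N.choose (r - (v + 1)) = c ^ v * (c * N.choose (r - (v + 1))) := by ring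
      _ ≤ c ^ v * N.choose (r - v) := Nat.mul_le_mul_left _ h1
      _ ≤ _ := ih (by omega)

theorem sum_choose_le (m q : ℕ) : ∑ j ∈ Finset.range (q + 1), m.choose j ≤ (m + 1) ^ q := by
  rw [add_pow]
  refine Finset.sum_le_sum (fun j hj => ?_)
  rw [Finset.mem_range] at hj
  have h1 : m.choose j ≤ m ^ j := Nat.choose_le_pow m j
  have h2 : 1 ≤ q.choose j := Nat.choose_pos (by omega)
  calc m.choose j ≤ m ^ j := h1
    _ = m ^ j * 1 := (mul_one _).symm
    _ ≤ m ^ j * q.choose j := Nat.mul_le_mul_left _ h2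
    _ = _ := by simp

/-- the number of subsets of size at most `q` -/
theorem card_small_subsets {α : Type} [DecidableEq α] (T : Finset α) (q : ℕ) :
    (T.powerset.filter (fun Q => Q.card ≤ q)).card ≤ (T.card + 1) ^ q := by
  refine le_trans ?_ (sum_choose_le T.card q)
  have h : T.powerset.filter (fun Q => Q.card ≤ q) ⊆
      (Finset.range (q + 1)).biUnion (fun j => Finset.powersetCard j T) := by
    intro Q hQ
    rw [Finset.mem_filter, Finset.mem_powerset] at hQ
    rw [Finset.mem_biUnion]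
    exact ⟨Q.card, Finset.mem_range.2 (by omega), Finset.mem_powersetCard.2 ⟨hQ.1, rfl⟩⟩
  refine le_trans (Finset.card_le_card h) (le_trans Finset.card_biUnion_le ?_)
  refine Finset.sum_le_sum (fun j _ => ?_)
  rw [Finset.card_powersetCard]

/-- the number of `j + 1`-subsets of `U` meeting `X` -/
theorem card_hit {α : Type} [DecidableEq α] (U X : Finset α) (j : ℕ) (W : Finset (Finset α))
    (hW : ∀ T ∈ W, T ⊆ U ∧ T.card = j + 1 ∧ ∃ x ∈ X, x ∈ T) :
    W.card ≤ X.card * (U.card - 1).choose j := by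
  have h : W ⊆ X.biUnion (fun x => ((Finset.powersetCard (j + 1) U).filter (fun T => x ∈ T))) := by
    intro T hT
    obtain ⟨hTU, hTc, x, hx, hxT⟩ := hW T hT
    rw [Finset.mem_biUnion]
    exact ⟨x, hx, Finset.mem_filter.2 ⟨Finset.mem_powersetCard.2 ⟨hTU, hTc⟩, hxT⟩⟩
  refine le_trans (Finset.card_le_card h) (le_trans Finset.card_biUnion_le ?_)
  rw [← smul_eq_mul]
  refine Finset.sum_le_card_nsmul _ _ _ (fun x hx => ?_)
  by_cases hxU : x ∈ U
  · have h2 : ((Finset.powersetCard (j + 1) U).filter (fun T => x ∈ T)).card ≤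
        (Finset.powersetCard j (U.erase x)).card := by
      refine Finset.card_le_card_of_injOn (fun T => T.erase x) ?_ ?_
      · intro T hT
        rw [Finset.mem_coe, Finset.mem_filter, Finset.mem_powersetCard] at hT
        rw [Finset.mem_coe, Finset.mem_powersetCard]
        refine ⟨Finset.erase_subset_erase x hT.1.1, ?_⟩
        rw [Finset.card_erase_of_mem hT.2, hT.1.2]
        rfl
      · intro T hT T' hT' hTT
        rw [Finset.mem_coe, Finset.mem_filter] at hT hT'
        have h3 := congrArg (insert x) hTT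
        simp only [Finset.insert_erase hT.2, Finset.insert_erase hT'.2] at h3
        exact h3
    rwa [Finset.card_powersetCard, Finset.card_erase_of_mem hxU] at h2
  · have h2 : (Finset.powersetCard (j + 1) U).filter (fun T => x ∈ T) = ∅ := by
      rw [Finset.filter_eq_empty_iff]
      intro T hT hxT
      exact hxU ((Finset.mem_powersetCard.1 hT).1 hxT)
    rw [h2]
    exact Nat.zero_le _

/-- **CNT**, integer form -/
theorem cnt_nat {n s i r m a : ℕ} (hi : 2 * i ≤ s) (hrs : r ≤ s) (hm : s - 2 * i ≤ m) (hms : m ≤ s)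
    (hsn : s ≤ n) (W : Finset (Finset (Fin n)))
    (hW : ∀ A ∈ W, A.card = s - r ∧ (A \ tail n (s - 2 * i)).card ≤ i ∧ (A \ tail n m).card ≤ a) :
    W.card ≤ ∑ τ ∈ Finset.range (a + 1), (s + 1) ^ (r - τ) * (n - m).choose τ := by
  have h : W ⊆ (Finset.range (a + 1)).biUnion (fun τ => W.filter (fun A => (A \ tail n m).card = τ)) := by
    intro A hA
    rw [Finset.mem_biUnion]
    exact ⟨_, Finset.mem_range.2 (Nat.lt_succ_of_le (hW A hA).2.2), Finset.mem_filter.2 ⟨hA, rfl⟩⟩
  refine le_trans (Finset.card_le_card h) (le_trans Finset.card_biUnion_le ?_)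
  refine Finset.sum_le_sum (fun τ _ => ?_)
  have hmn : m ≤ n := hms.trans hsn
  have h1 : (W.filter (fun A => (A \ tail n m).card = τ)).card ≤
      ((((tail n m).powerset.filter (fun Q => Q.card ≤ r - τ))) ×ˢ
        (Finset.powersetCard τ (tail n m)ᶜ)).card := by
    refine Finset.card_le_card_of_injOn
      (fun A => (symmDiff (A ∩ tail n m) (tail n (s - 2 * i)), A \ tail n m)) ?_ ?_
    · intro A hA
      rw [Finset.mem_coe, Finset.mem_filter] at hA
      obtain ⟨hA, hτ⟩ := hA
      obtain ⟨hAc, hAi, hAa⟩ := hW A hA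
      rw [Finset.mem_coe, Finset.mem_product, Finset.mem_filter, Finset.mem_powerset,
        Finset.mem_powersetCard]
      refine ⟨⟨?_, ?_⟩, ?_, hτ⟩
      · intro x hx
        rw [Finset.mem_symmDiff] at hx
        rcases hx with hx | hx
        · exact (Finset.mem_inter.1 hx.1).2
        · exact tail_subset hm hx.1
      · have e1 : symmDiff (A ∩ tail n m) (tail n (s - 2 * i)) =
            ((A ∩ tail n m) \ tail n (s - 2 * i)) ∪ (tail n (s - 2 * i) \ A) := by
          ext x
          rw [Finset.mem_symmDiff, Finset.mem_union, Finset.mem_sdiff, Finset.mem_sdiff,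
            Finset.mem_inter]
          constructor
          · rintro (⟨h1, h2⟩ | ⟨h1, h2⟩)
            · exact Or.inl ⟨h1, h2⟩
            · exact Or.inr ⟨h1, fun hh => h2 ⟨hh, tail_subset hm h1⟩⟩
          · rintro (⟨h1, h2⟩ | ⟨h1, h2⟩)
            · exact Or.inl ⟨h1, h2⟩
            · exact Or.inr ⟨h1, fun hh => h2 hh.1⟩
        have e2 := Finset.card_union_le ((A ∩ tail n m) \ tail n (s - 2 * i))
          (tail n (s - 2 * i) \ A)
        have e3 : (A \ tail n (s - 2 * i)).card =
            ((A ∩ tail n m) \ tail n (s - 2 * i)).card + (A \ tail n m).card := by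
          rw [← Finset.card_union_of_disjoint]
          · congr 1
            ext x
            simp only [Finset.mem_union, Finset.mem_sdiff, Finset.mem_inter]
            constructor
            · rintro ⟨h1, h2⟩
              by_cases hx : x ∈ tail n m
              · exact Or.inl ⟨⟨h1, hx⟩, h2⟩
              · exact Or.inr ⟨h1, hx⟩
            · rintro (⟨⟨h1, _⟩, h2⟩ | ⟨h1, h2⟩)
              · exact ⟨h1, h2⟩
              · exact ⟨h1, fun hh => h2 (tail_subset hm hh)⟩
          · rw [Finset.disjoint_left]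
            intro x hx hx'
            exact (Finset.mem_sdiff.1 hx').2 (Finset.mem_inter.1 (Finset.mem_sdiff.1 hx).1).2
        have e4 := card_split A (tail n (s - 2 * i))
        have e5 := card_split (tail n (s - 2 * i)) A
        rw [Finset.inter_comm, card_tail (by omega)] at e5
        show (symmDiff (A ∩ tail n m) (tail n (s - 2 * i))).card ≤ r - τ
        rw [e1]
        omega
      · intro x hx
        exact Finset.mem_compl.2 (Finset.mem_sdiff.1 hx).2
    · intro A hA B hB hAB
      simp only [Prod.mk.injEq] at hAB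
      have h3 : A ∩ tail n m = B ∩ tail n m := symmDiff_left_injective _ hAB.1
      ext x
      by_cases hx : x ∈ tail n m
      · have := Finset.ext_iff.1 h3 x
        simpa [hx] using this
      · have := Finset.ext_iff.1 hAB.2 x
        simpa [hx] using this
  rw [Finset.card_product, Finset.card_powersetCard, card_compl_tail hmn] at h1
  refine le_trans h1 (Nat.mul_le_mul_right _ ?_)
  refine le_trans (card_small_subsets _ _) ?_
  rw [card_tail hmn]
  exact Nat.pow_le_pow_left (by omega) _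

theorem geo_sum (r : ℕ) : ∀ a ≤ r, ∑ τ ∈ Finset.range (a + 1), (1 / 12 : ℝ) ^ (r - τ) ≤
    12 / 11 * (1 / 12) ^ (r - a) := by
  intro a
  induction a with
  | zero =>
    intro _
    have : (0 : ℝ) < (1 / 12) ^ r := by positivity
    simp only [zero_add, Finset.range_one, Finset.sum_singleton, Nat.sub_zero]
    linarith
  | succ a ih =>
    intro ha
    rw [Finset.sum_range_succ]
    have h1 := ih (by omega)
    have h2 : r - a = (r - (a + 1)) + 1 := by omega
    rw [h2, pow_succ] at h1
    linarith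

/-- the comparison of one term -/
theorem term_le {n s r m τ : ℕ} (hsn : s ≤ n) (hm : s - 2 * r ≤ m) (hrs : 2 * r ≤ s)
    (hτ : τ ≤ r) (hN : 12 * (s + 1) * r + r ≤ n - s + 2 * r) :
    (((s + 1) ^ (r - τ) * (n - m).choose τ : ℕ) : ℝ) ≤
      (1 / 12) ^ (r - τ) * ((n - s + 2 * r).choose r : ℝ) := by
  have h1 := bin_pow hN (r - τ) (by omega)
  have h2 : r - (r - τ) = τ := by omega
  rw [h2, mul_pow] at h1
  have h3 : (n - m).choose τ ≤ (n - s + 2 * r).choose τ := Nat.choose_le_choose τ (by omega)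
  have h4 : 12 ^ (r - τ) * ((s + 1) ^ (r - τ) * (n - m).choose τ) ≤ (n - s + 2 * r).choose r := by
    calc 12 ^ (r - τ) * ((s + 1) ^ (r - τ) * (n - m).choose τ)
        ≤ 12 ^ (r - τ) * ((s + 1) ^ (r - τ) * (n - s + 2 * r).choose τ) :=
          Nat.mul_le_mul_left _ (Nat.mul_le_mul_left _ h3)
      _ = 12 ^ (r - τ) * (s + 1) ^ (r - τ) * (n - s + 2 * r).choose τ := by ring
      _ ≤ _ := h1
  have h5 : (12 : ℝ) ^ (r - τ) * (((s + 1) ^ (r - τ) * (n - m).choose τ : ℕ) : ℝ) ≤
      ((n - s + 2 * r).choose r : ℝ) := by exact_mod_cast h4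
  rw [one_div, inv_pow]
  have h6 : (0 : ℝ) < 12 ^ (r - τ) := by positivity
  rw [inv_mul_eq_div, le_div_iff₀' h6]
  exact h5

/-- **CNT**, real form -/
theorem cnt_real {n s i r m a : ℕ} (hi : 2 * i ≤ s) (hir : i ≤ r) (hrs : 2 * r ≤ s)
    (hm : s - 2 * i ≤ m) (hms : m ≤ s) (hsn : s ≤ n) (har : a ≤ r)
    (hN : 12 * (s + 1) * r + r ≤ n - s + 2 * r) (W : Finset (Finset (Fin n)))
    (hW : ∀ A ∈ W, A.card = s - r ∧ (A \ tail n (s - 2 * i)).card ≤ i ∧ (A \ tail n m).card ≤ a) :
    (W.card : ℝ) ≤ 12 / 11 * (1 / 12) ^ (r - a) * ((n - s + 2 * r).choose r : ℝ) := by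
  have h1 := cnt_nat hi (by omega) hm hms hsn W hW
  have h2 : (W.card : ℝ) ≤ ((∑ τ ∈ Finset.range (a + 1), (s + 1) ^ (r - τ) * (n - m).choose τ : ℕ) : ℝ) := by
    exact_mod_cast h1
  refine le_trans h2 ?_
  rw [Nat.cast_sum]
  have h3 : ∑ τ ∈ Finset.range (a + 1), (((s + 1) ^ (r - τ) * (n - m).choose τ : ℕ) : ℝ) ≤
      ∑ τ ∈ Finset.range (a + 1), (1 / 12 : ℝ) ^ (r - τ) * ((n - s + 2 * r).choose r : ℝ) := by
    refine Finset.sum_le_sum (fun τ hτ => ?_)
    rw [Finset.mem_range] at hτ
    exact term_le hsn (by omega) hrs (by omega) hN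
  refine le_trans h3 ?_
  rw [← Finset.sum_mul]
  exact mul_le_mul_of_nonneg_right (geo_sum r a har) (Nat.cast_nonneg _)

end Pool.Agent.ProfEP
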