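import Mathlib

/-! # Complement families: definitions and basic facts -/

namespace Pool.Agent.ProfEP

/-- the last `m` elements of `Fin n` -/
def tail (n m : ℕ) : Finset (Fin n) := Finset.univ.filter (fun x => n ≤ (x : ℕ) + m)

/-- unions of two members have at most `s` elements -/
def UBd {n : ℕ} (s : ℕ) (G : Finset (Finset (Fin n))) : Prop :=
  ∀ A ∈ G, ∀ B ∈ G, (A ∪ B).card ≤ s

/-- number of members of size `j` -/
def lev {n : ℕ} (G : Finset (Finset (Fin n))) (j : ℕ) : ℕ :=
  (G.filter (fun A => A.card = j)).card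

/-- shifted to the right -/
def Shifted {n : ℕ} (G : Finset (Finset (Fin n))) : Prop :=
  ∀ A ∈ G, ∀ x ∈ A, ∀ y, y ∉ A → x < y → insert y (A.erase x) ∈ G

/-- the complements of the members of the Frankl families -/
def fam (n s r : ℕ) : Finset (Finset (Fin n)) :=
  Finset.univ.filter (fun G => (G \ tail n (s - 2 * r)).card ≤ r)

theorem mem_tail {n m : ℕ} {x : Fin n} : x ∈ tail n m ↔ n ≤ (x : ℕ) + m := by
  simp [tail]

theorem mem_fam {n s r : ℕ} {A : Finset (Fin n)} :
    A ∈ fam n s r ↔ (A \ tail n (s - 2 * r)).card ≤ r := by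
  simp [fam]

theorem card_tail {n m : ℕ} (h : m ≤ n) : (tail n m).card = m := by
  have h1 : (tail n m).map Fin.valEmbedding = Finset.Ico (n - m) n := by
    ext a
    simp only [Finset.mem_map, Fin.valEmbedding_apply, Finset.mem_Ico, mem_tail]
    constructor
    · rintro ⟨x, hx, rfl⟩
      exact ⟨by omega, x.2⟩
    · rintro ⟨h1, h2⟩
      exact ⟨⟨a, h2⟩, by simp only; omega, rfl⟩
  have h2 := congrArg Finset.card h1
  rw [Finset.card_map, Nat.card_Ico] at h2
  omega

theorem tail_subset {n m m' : ℕ} (h : m ≤ m') : tail n m ⊆ tail n m' := by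
  intro x hx
  rw [mem_tail] at *
  omega

theorem card_compl_tail {n m : ℕ} (h : m ≤ n) : ((tail n m)ᶜ).card = n - m := by
  rw [Finset.card_compl, Fintype.card_fin, card_tail h]

theorem lev_mono {n : ℕ} {G H : Finset (Finset (Fin n))} (h : G ⊆ H) (j : ℕ) :
    lev G j ≤ lev H j :=
  Finset.card_le_card (Finset.filter_subset_filter _ h)

theorem lev_le_choose {n : ℕ} (G : Finset (Finset (Fin n))) (j : ℕ) : lev G j ≤ n.choose j := by
  have h : G.filter (fun A => A.card = j) ⊆ Finset.powersetCard j (Finset.univ : Finset (Fin n)) := by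
    intro A hA
    rw [Finset.mem_filter] at hA
    rw [Finset.mem_powersetCard]
    exact ⟨Finset.subset_univ _, hA.2⟩
  have h2 := Finset.card_le_card h
  rwa [Finset.card_powersetCard, Finset.card_univ, Fintype.card_fin] at h2

theorem lev_fam_low {n s r j : ℕ} (h : j ≤ r) : lev (fam n s r) j = n.choose j := by
  have h : (fam n s r).filter (fun A => A.card = j) =
      Finset.powersetCard j (Finset.univ : Finset (Fin n)) := by
    ext A
    rw [Finset.mem_filter, Finset.mem_powersetCard, mem_fam]
    constructor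
    · rintro ⟨_, h2⟩
      exact ⟨Finset.subset_univ _, h2⟩
    · rintro ⟨_, h2⟩
      refine ⟨?_, h2⟩
      have := Finset.card_le_card (Finset.sdiff_subset : A \ tail n (s - 2 * r) ⊆ A)
      omega
  rw [lev, h, Finset.card_powersetCard, Finset.card_univ, Fintype.card_fin]

theorem ubd_fam {n s r : ℕ} (h : 2 * r ≤ s) (hs : s ≤ n) : UBd s (fam n s r) := by
  intro A hA B hB
  rw [mem_fam] at hA hB
  have h1 : A ∪ B ⊆ tail n (s - 2 * r) ∪ ((A \ tail n (s - 2 * r)) ∪ (B \ tail n (s - 2 * r))) := by
    intro x hx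
    by_cases hxt : x ∈ tail n (s - 2 * r)
    · exact Finset.mem_union_left _ hxt
    · refine Finset.mem_union_right _ ?_
      rcases Finset.mem_union.1 hx with hx | hx
      · exact Finset.mem_union_left _ (Finset.mem_sdiff.2 ⟨hx, hxt⟩)
      · exact Finset.mem_union_right _ (Finset.mem_sdiff.2 ⟨hx, hxt⟩)
  have h2 := Finset.card_le_card h1
  have h3 := Finset.card_union_le (tail n (s - 2 * r))
    ((A \ tail n (s - 2 * r)) ∪ (B \ tail n (s - 2 * r)))
  have h4 := Finset.card_union_le (A \ tail n (s - 2 * r)) (B \ tail n (s - 2 * r))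
  have h5 := card_tail (n := n) (m := s - 2 * r) (by omega)
  omega

theorem card_split {n : ℕ} (A T : Finset (Fin n)) : (A ∩ T).card + (A \ T).card = A.card := by
  rw [Finset.card_inter_add_card_sdiff]

/-- members of `fam r` of size `s - r` contain the tail -/
theorem card_le_of_mem_fam {n s r : ℕ} (h : 2 * r ≤ s) (hs : s ≤ n) {A : Finset (Fin n)}
    (hA : A ∈ fam n s r) : A.card ≤ s - r := by
  rw [mem_fam] at hA
  have h1 := card_split A (tail n (s - 2 * r))
  have h2 := Finset.card_le_card (Finset.inter_subset_right : A ∩ tail n (s - 2 * r) ⊆ _)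
  rw [card_tail (by omega)] at h2
  omega

theorem lev_fam_zero {n s r j : ℕ} (h : 2 * r ≤ s) (hs : s ≤ n) (hj : s - r < j) :
    lev (fam n s r) j = 0 := by
  rw [lev, Finset.card_eq_zero, Finset.filter_eq_empty_iff]
  intro A hA
  have := card_le_of_mem_fam h hs hA
  omega

theorem lev_fam_top {n s r : ℕ} (h : 2 * r ≤ s) (hs : s ≤ n) :
    lev (fam n s r) (s - r) = (n - s + 2 * r).choose r := by
  have hcard : ((tail n (s - 2 * r))ᶜ).card = n - s + 2 * r := by
    rw [card_compl_tail (by omega)]
    omega
  rw [← hcard, ← Finset.card_powersetCard, lev]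
  refine Finset.card_bij (fun A _ => A \ tail n (s - 2 * r)) ?_ ?_ ?_
  · intro A hA
    rw [Finset.mem_filter, mem_fam] at hA
    rw [Finset.mem_powersetCard]
    refine ⟨fun x hx => Finset.mem_compl.2 (Finset.mem_sdiff.1 hx).2, ?_⟩
    have h1 := card_split A (tail n (s - 2 * r))
    have h2 := Finset.card_le_card (Finset.inter_subset_right : A ∩ tail n (s - 2 * r) ⊆ _)
    rw [card_tail (by omega)] at h2
    omega
  · intro A hA B hB hAB
    have key : ∀ C : Finset (Fin n), C ∈ (fam n s r).filter (fun A => A.card = s - r) →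
        tail n (s - 2 * r) ⊆ C := by
      intro C hC
      rw [Finset.mem_filter, mem_fam] at hC
      have h1 := card_split C (tail n (s - 2 * r))
      have h2 : (tail n (s - 2 * r)).card ≤ (C ∩ tail n (s - 2 * r)).card := by
        rw [card_tail (by omega)]
        omega
      have h3 := Finset.eq_of_subset_of_card_le
        (Finset.inter_subset_right : C ∩ tail n (s - 2 * r) ⊆ _) h2
      rw [← h3]
      exact Finset.inter_subset_left
    have h1 := key A hA
    have h2 := key B hB
    ext x
    by_cases hx : x ∈ tail n (s - 2 * r)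
    · exact ⟨fun _ => h2 hx, fun _ => h1 hx⟩
    · have := Finset.ext_iff.1 hAB x
      simp only [Finset.mem_sdiff, hx, not_false_eq_true, and_true] at this
      exact this
  · intro T hT
    rw [Finset.mem_powersetCard] at hT
    have hd : Disjoint (tail n (s - 2 * r)) T := by
      rw [Finset.disjoint_left]
      intro x hx hxT
      exact (Finset.mem_compl.1 (hT.1 hxT)) hx
    have hsd : (tail n (s - 2 * r) ∪ T) \ tail n (s - 2 * r) = T := by
      rw [Finset.union_sdiff_cancel_left hd]
    refine ⟨tail n (s - 2 * r) ∪ T, ?_, hsd⟩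
    rw [Finset.mem_filter, mem_fam, hsd, hT.2, Finset.card_union_of_disjoint hd, hT.2,
      card_tail (by omega)]
    omega

end Pool.Agent.ProfEP
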