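import Pool.Agent.Lib_MP_05ae4a_ep.Shift
import Pool.Agent.Lib_MP_05ae4a_ep.Count

/-! # Domination by convex combinations of the Frankl profiles -/

namespace Pool.Agent.ProfEP

theorem hN_of {n s r : ℕ} (hs : 2 ≤ s) (hr : 2 * r ≤ s) (h10 : 10 * s ^ 2 ≤ n) :
    12 * (s + 1) * r + r ≤ n - s + 2 * r := by
  have h1 : 12 * (s + 1) * r ≤ 6 * (s + 1) * s := by nlinarith
  have h2 : 6 * (s + 1) * s + s ≤ 10 * s ^ 2 := by nlinarith
  omega

theorem le_self_sq {s n : ℕ} (h10 : 10 * s ^ 2 ≤ n) : s ≤ n := by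
  nlinarith

theorem top_structure {n s r : ℕ} (h : 2 * r ≤ s) (hs : s ≤ n) {A : Finset (Fin n)}
    (hA : A ∈ fam n s r) (hc : A.card = s - r) :
    tail n (s - 2 * r) ⊆ A ∧ (A \ tail n (s - 2 * r)).card = r := by
  rw [mem_fam] at hA
  have h1 := card_split A (tail n (s - 2 * r))
  have h4 := Finset.card_le_card (Finset.inter_subset_right : A ∩ tail n (s - 2 * r) ⊆ _)
  have ht := card_tail (n := n) (m := s - 2 * r) (by omega)
  have h2 : (tail n (s - 2 * r)).card ≤ (A ∩ tail n (s - 2 * r)).card := by omega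
  have h3 := Finset.eq_of_subset_of_card_le
    (Finset.inter_subset_right : A ∩ tail n (s - 2 * r) ⊆ _) h2
  refine ⟨?_, by omega⟩
  rw [← h3]
  exact Finset.inter_subset_left

/-- the members of size `s - r` and index `i` -/
def W {n : ℕ} (G : Finset (Finset (Fin n))) (s r i : ℕ) : Finset (Finset (Fin n)) :=
  G.filter (fun A => A.card = s - r ∧ A ∈ fam n s i)

theorem level_cover {n s r : ℕ} (hsn : s ≤ n) (hrs : r ≤ s) {G : Finset (Finset (Fin n))}
    (hG : Shifted G) (hU : UBd s G) :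
    (lev G (s - r) : ℝ) ≤ ∑ i ∈ Finset.range (r + 1), ((W G s r i).card : ℝ) := by
  have h : G.filter (fun A => A.card = s - r) ⊆ (Finset.range (r + 1)).biUnion (W G s r) := by
    intro A hA
    rw [Finset.mem_filter] at hA
    obtain ⟨i, hi, hAi⟩ := exists_index hsn hG hU hA.1
    have h1 := card_le_of_mem_fam hi hsn hAi
    rw [Finset.mem_biUnion]
    exact ⟨i, Finset.mem_range.2 (by omega), Finset.mem_filter.2 ⟨hA.1, hA.2, hAi⟩⟩
  have h2 := le_trans (Finset.card_le_card h) Finset.card_biUnion_le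
  unfold lev
  exact_mod_cast h2

theorem W_le {n s r i rho : ℕ} (hsn : s ≤ n) (hrs : 2 * r ≤ s) (hir : i ≤ r) (hrr : rho ≤ r)
    (hN : 12 * (s + 1) * r + r ≤ n - s + 2 * r) {G : Finset (Finset (Fin n))}
    (hmax : ∀ B ∈ G, (B \ tail n (s - rho)).card ≤ rho) :
    ((W G s r i).card : ℝ) ≤
      12 / 11 * (1 / 12) ^ (r - min i rho) * ((n - s + 2 * r).choose r : ℝ) := by
  rcases Nat.lt_or_ge i rho with hi | hi
  · rw [Nat.min_eq_left hi.le]
    refine cnt_real (i := i) (m := s - 2 * i) (by omega) hir hrs le_rfl (by omega) hsn hir hN _ ?_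
    intro A hA
    rw [W, Finset.mem_filter, mem_fam] at hA
    exact ⟨hA.2.1, hA.2.2, hA.2.2⟩
  · rw [Nat.min_eq_right hi]
    refine cnt_real (i := i) (m := s - rho) (by omega) hir hrs (by omega) (by omega) hsn hrr hN _ ?_
    intro A hA
    rw [W, Finset.mem_filter, mem_fam] at hA
    exact ⟨hA.2.1, hA.2.2, hmax A hA.1⟩

theorem sum_min (r rho : ℕ) (h : rho ≤ r) (N : ℕ) :
    ∑ i ∈ Finset.range (rho + 1 + N), (1 / 12 : ℝ) ^ (r - min i rho) ≤
      (12 / 11 + N) * (1 / 12) ^ (r - rho) := by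
  induction N with
  | zero =>
    rw [Nat.add_zero]
    have h1 : ∑ i ∈ Finset.range (rho + 1), (1 / 12 : ℝ) ^ (r - min i rho) =
        ∑ i ∈ Finset.range (rho + 1), (1 / 12 : ℝ) ^ (r - i) := by
      refine Finset.sum_congr rfl (fun i hi => ?_)
      rw [Finset.mem_range] at hi
      rw [Nat.min_eq_left (by omega)]
    rw [h1]
    have h2 := geo_sum r rho h
    simpa using h2
  | succ N ih =>
    rw [← Nat.add_assoc, Finset.sum_range_succ, Nat.min_eq_right (by omega)]
    push_cast
    linarith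

theorem num_bound : ∀ u : ℕ, (12 / 11 : ℝ) * (12 / 11 + (u + 1 : ℕ)) * (1 / 12) ^ (u + 1) ≤
    2 / 5 * (1 / 2) ^ (u + 1) := by
  intro u
  have key : ∀ u : ℕ, (12 / 11 : ℝ) * (12 / 11 + (u + 1 : ℕ)) * (5 / 2) ≤ 6 ^ (u + 1) := by
    intro u
    induction u with
    | zero => norm_num
    | succ u ih =>
      push_cast at ih ⊢
      have h1 : (1 : ℝ) ≤ 6 ^ (u + 1) := one_le_pow₀ (by norm_num)
      have h2 : (6 : ℝ) ^ (u + 1 + 1) = 6 * 6 ^ (u + 1) := by ring
      rw [h2]
      linarith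
  have h1 := key u
  have h2 : (1 / 2 : ℝ) ^ (u + 1) = 6 ^ (u + 1) * (1 / 12) ^ (u + 1) := by
    rw [← mul_pow]
    norm_num
  rw [h2]
  have h3 : (0 : ℝ) < (1 / 12) ^ (u + 1) := by positivity
  nlinarith

theorem mid_level {n s r rho : ℕ} (hsn : s ≤ n) (hrs : 2 * r ≤ s) (hrr : rho < r)
    (hN : 12 * (s + 1) * r + r ≤ n - s + 2 * r) {G : Finset (Finset (Fin n))}
    (hG : Shifted G) (hU : UBd s G)
    (hmax : ∀ B ∈ G, (B \ tail n (s - rho)).card ≤ rho) :
    (lev G (s - r) : ℝ) ≤ 2 / 5 * (1 / 2) ^ (r - rho) * ((n - s + 2 * r).choose r : ℝ) := by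
  refine le_trans (level_cover hsn (by omega) hG hU) ?_
  have h1 : ∑ i ∈ Finset.range (r + 1), ((W G s r i).card : ℝ) ≤
      ∑ i ∈ Finset.range (r + 1),
        12 / 11 * (1 / 12) ^ (r - min i rho) * ((n - s + 2 * r).choose r : ℝ) := by
    refine Finset.sum_le_sum (fun i hi => ?_)
    rw [Finset.mem_range] at hi
    exact W_le hsn hrs (by omega) hrr.le hN hmax
  refine le_trans h1 ?_
  rw [← Finset.sum_mul, ← Finset.mul_sum]
  refine mul_le_mul_of_nonneg_right ?_ (Nat.cast_nonneg _)
  obtain ⟨u, rfl⟩ : ∃ u, r = rho + (u + 1) := ⟨r - rho - 1, by omega⟩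
  have h2 := sum_min (rho + (u + 1)) rho (by omega) (u + 1)
  have h3 : rho + (u + 1) - rho = u + 1 := by omega
  have h4 : rho + 1 + (u + 1) = rho + (u + 1) + 1 := by omega
  rw [h3, h4] at h2
  rw [h3]
  have h5 := num_bound u
  nlinarith

theorem hit_bound {N a j c : ℕ} (hN : 1 ≤ N) (h : c * a * (j + 1) ≤ N) :
    c * (a * (N - 1).choose j) ≤ N.choose (j + 1) := by
  obtain ⟨M, rfl⟩ : ∃ M, N = M + 1 := ⟨N - 1, by omega⟩
  have h1 := Nat.add_one_mul_choose_eq M j
  have h2 : c * (a * (M + 1 - 1).choose j) * (M + 1) ≤ (M + 1).choose (j + 1) * (M + 1) := by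
    calc c * (a * (M + 1 - 1).choose j) * (M + 1) = c * a * ((M + 1) * M.choose j) := by
          rw [Nat.add_sub_cancel]; ring
      _ = c * a * ((M + 1).choose (j + 1) * (j + 1)) := by rw [h1]
      _ = (M + 1).choose (j + 1) * (c * a * (j + 1)) := by ring
      _ ≤ _ := Nat.mul_le_mul_left _ h
  exact Nat.le_of_mul_le_mul_right h2 (Nat.succ_pos M)

theorem W_top {n s rho : ℕ} (hsn : s ≤ n) (hrs : 2 * rho ≤ s) (hr1 : 1 ≤ rho)
    (hN : 12 * (s + 1) * rho + rho ≤ n - s + 2 * rho) {G : Finset (Finset (Fin n))}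
    (hU : UBd s G) {B : Finset (Fin n)} (hB : B ∈ G)
    (hBc : rho < (B \ tail n (s - 2 * rho)).card) :
    12 * (W G s rho rho).card ≤ (n - s + 2 * rho).choose rho := by
  obtain ⟨X, hX, hXc⟩ := Finset.exists_subset_card_eq (Nat.succ_le_of_lt hBc)
  obtain ⟨j, rfl⟩ : ∃ j, rho = j + 1 := ⟨rho - 1, by omega⟩
  have hUc : ((tail n (s - 2 * (j + 1)))ᶜ).card = n - s + 2 * (j + 1) := by
    rw [card_compl_tail (by omega)]
    omega
  have hinj : Set.InjOn (fun A => A \ tail n (s - 2 * (j + 1)))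
      (W G s (j + 1) (j + 1) : Set (Finset (Fin n))) := by
    intro A hA A' hA' hAA
    rw [Finset.mem_coe, W, Finset.mem_filter] at hA hA'
    have ht := (top_structure hrs hsn hA.2.2 hA.2.1).1
    have ht' := (top_structure hrs hsn hA'.2.2 hA'.2.1).1
    ext x
    by_cases hx : x ∈ tail n (s - 2 * (j + 1))
    · exact ⟨fun _ => ht' hx, fun _ => ht hx⟩
    · have := Finset.ext_iff.1 hAA x
      simpa [hx] using this
  have h2 := card_hit (tail n (s - 2 * (j + 1)))ᶜ X j
    ((W G s (j + 1) (j + 1)).image (fun A => A \ tail n (s - 2 * (j + 1)))) (by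
      intro T hT
      obtain ⟨A, hA, rfl⟩ := Finset.mem_image.1 hT
      rw [W, Finset.mem_filter] at hA
      obtain ⟨hAG, hAc, hAf⟩ := hA
      obtain ⟨ht, hTc⟩ := top_structure hrs hsn hAf hAc
      refine ⟨fun x hx => Finset.mem_compl.2 (Finset.mem_sdiff.1 hx).2, hTc, ?_⟩
      by_contra hcon
      push Not at hcon
      have hsub : tail n (s - 2 * (j + 1)) ∪ ((A \ tail n (s - 2 * (j + 1))) ∪ X) ⊆ A ∪ B := by
        intro x hx
        rcases Finset.mem_union.1 hx with hx | hx
        · exact Finset.mem_union_left _ (ht hx)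
        · rcases Finset.mem_union.1 hx with hx | hx
          · exact Finset.mem_union_left _ (Finset.mem_sdiff.1 hx).1
          · exact Finset.mem_union_right _ (Finset.mem_sdiff.1 (hX hx)).1
      have h2 := Finset.card_le_card hsub
      have hd1 : Disjoint (A \ tail n (s - 2 * (j + 1))) X := by
        rw [Finset.disjoint_left]
        intro x hx hxX
        exact hcon x hxX hx
      have hd2 : Disjoint (tail n (s - 2 * (j + 1))) ((A \ tail n (s - 2 * (j + 1))) ∪ X) := by
        rw [Finset.disjoint_left]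
        intro x hx hx'
        rcases Finset.mem_union.1 hx' with hx' | hx'
        · exact (Finset.mem_sdiff.1 hx').2 hx
        · exact (Finset.mem_sdiff.1 (hX hx')).2 hx
      rw [Finset.card_union_of_disjoint hd2, Finset.card_union_of_disjoint hd1,
        card_tail (by omega)] at h2
      have h3 := hU A hAG B hB
      omega)
  rw [hUc, hXc, Finset.card_image_of_injOn hinj] at h2
  have h3 : 12 * (j + 1 + 1) * (j + 1) ≤ n - s + 2 * (j + 1) := by
    have : 12 * (j + 1 + 1) * (j + 1) ≤ 12 * (s + 1) * (j + 1) :=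
      Nat.mul_le_mul_right _ (by omega)
    omega
  have h4 := hit_bound (N := n - s + 2 * (j + 1)) (a := j + 1 + 1) (j := j) (c := 12)
    (by omega) h3
  calc 12 * (W G s (j + 1) (j + 1)).card
      ≤ 12 * ((j + 1 + 1) * (n - s + 2 * (j + 1) - 1).choose j) := Nat.mul_le_mul_left _ h2
    _ ≤ _ := h4

theorem top_level {n s rho : ℕ} (hsn : s ≤ n) (hrs : 2 * rho ≤ s) (hr1 : 1 ≤ rho)
    (hN : 12 * (s + 1) * rho + rho ≤ n - s + 2 * rho) {G : Finset (Finset (Fin n))}
    (hG : Shifted G) (hU : UBd s G) (hmax : ∀ B ∈ G, (B \ tail n (s - rho)).card ≤ rho)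
    {B : Finset (Fin n)} (hB : B ∈ G) (hBc : rho < (B \ tail n (s - 2 * rho)).card) :
    (lev G (s - rho) : ℝ) ≤ 2 / 5 * ((n - s + 2 * rho).choose rho : ℝ) := by
  refine le_trans (level_cover hsn (by omega) hG hU) ?_
  rw [Finset.sum_range_succ]
  have h0 : (12 : ℝ) * ((W G s rho rho).card : ℝ) ≤ ((n - s + 2 * rho).choose rho : ℝ) := by
    exact_mod_cast W_top hsn hrs hr1 hN hU hB hBc
  have h1 : ∑ i ∈ Finset.range rho, ((W G s rho i).card : ℝ) ≤
      ∑ i ∈ Finset.range rho,
        12 / 11 * (1 / 12) ^ (rho - i) * ((n - s + 2 * rho).choose rho : ℝ) := by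
    refine Finset.sum_le_sum (fun i hi => ?_)
    rw [Finset.mem_range] at hi
    have := W_le hsn hrs hi.le le_rfl hN hmax
    rwa [Nat.min_eq_left hi.le] at this
  rw [← Finset.sum_mul, ← Finset.mul_sum] at h1
  obtain ⟨j, rfl⟩ : ∃ j, rho = j + 1 := ⟨rho - 1, by omega⟩
  have h2 := geo_sum (j + 1) j (by omega)
  have h3 : j + 1 - j = 1 := by omega
  rw [h3, pow_one] at h2
  have h4 : (0 : ℝ) ≤ ((n - s + 2 * (j + 1)).choose (j + 1) : ℝ) := Nat.cast_nonneg _
  nlinarith

theorem low_level {n s rho j : ℕ} (h10 : 10 * s ^ 2 ≤ n) (hjr : rho < j) (hjs : 2 * j ≤ s)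
    {G : Finset (Finset (Fin n))} (hmax : ∀ B ∈ G, (B \ tail n (s - rho)).card ≤ rho) :
    (lev G j : ℝ) ≤ 1 / 5 * (n.choose j : ℝ) := by
  obtain ⟨i, rfl⟩ : ∃ i, j = i + 1 := ⟨j - 1, by omega⟩
  have hsn := le_self_sq h10
  have h2 := card_hit (Finset.univ : Finset (Fin n)) (tail n (s - rho)) i
    (G.filter (fun A => A.card = i + 1)) (by
      intro A hA
      rw [Finset.mem_filter] at hA
      refine ⟨Finset.subset_univ _, hA.2, ?_⟩
      by_contra hcon
      push Not at hcon
      have h2 : A \ tail n (s - rho) = A := by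
        rw [Finset.sdiff_eq_self_iff_disjoint, Finset.disjoint_left]
        intro x hx hxt
        exact hcon x hxt hx
      have h3 := hmax A hA.1
      rw [h2] at h3
      omega)
  rw [Finset.card_univ, Fintype.card_fin, card_tail (by omega)] at h2
  have h3 : 5 * (s - rho) * (i + 1) ≤ n := by
    have : 5 * (s - rho) * (i + 1) ≤ 5 * s * s := Nat.mul_le_mul (by omega) (by omega)
    nlinarith
  have h4 := hit_bound (N := n) (a := s - rho) (j := i) (c := 5) (by omega) h3
  have h5 : 5 * lev G (i + 1) ≤ n.choose (i + 1) :=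
    le_trans (Nat.mul_le_mul_left _ h2) h4
  have h6 : (5 : ℝ) * (lev G (i + 1) : ℝ) ≤ (n.choose (i + 1) : ℝ) := by exact_mod_cast h5
  linarith

/-- geometric weights -/
noncomputable def gw (rho r : ℕ) : ℝ := if rho ≤ r then 2 / 5 * (1 / 2) ^ (r - rho) else 0

theorem gw_nonneg (rho r : ℕ) : 0 ≤ gw rho r := by
  unfold gw
  split_ifs
  · positivity
  · exact le_rfl

theorem gw_sum (rho N : ℕ) : ∑ r ∈ Finset.range N, gw rho r ≤ 4 / 5 * (1 - (1 / 2) ^ (N - rho)) := by
  induction N with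
  | zero => simp
  | succ N ih =>
    rw [Finset.sum_range_succ]
    unfold gw at ih ⊢
    split_ifs with h
    · have : N + 1 - rho = (N - rho) + 1 := by omega
      rw [this, pow_succ]
      linarith
    · have h1 : N - rho = 0 := by omega
      have h2 : N + 1 - rho = 0 := by omega
      rw [h1] at ih
      rw [h2]
      linarith

/-- the weights of the convex combination -/
noncomputable def cw (rho R r : ℕ) : ℝ :=
  gw rho r + if r = R then 1 - ∑ q ∈ Finset.range (R + 1), gw rho q else 0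

theorem rest_ge (rho R : ℕ) : 1 / 5 ≤ 1 - ∑ q ∈ Finset.range (R + 1), gw rho q := by
  have h1 := gw_sum rho (R + 1)
  have h2 : (0 : ℝ) < (1 / 2) ^ (R + 1 - rho) := by positivity
  linarith

theorem cw_ge (rho R r : ℕ) : gw rho r ≤ cw rho R r := by
  unfold cw
  split_ifs
  · have := rest_ge rho R
    linarith
  · linarith

theorem cw_nonneg (rho R r : ℕ) : 0 ≤ cw rho R r := le_trans (gw_nonneg rho r) (cw_ge rho R r)

theorem cw_last (rho R : ℕ) : 1 / 5 ≤ cw rho R R := by
  unfold cw
  rw [if_pos rfl]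
  have := rest_ge rho R
  have := gw_nonneg rho R
  linarith

theorem cw_sum (rho R : ℕ) : ∑ r ∈ Finset.range (R + 1), cw rho R r = 1 := by
  unfold cw
  rw [Finset.sum_add_distrib, Finset.sum_ite_eq' (Finset.range (R + 1)) R,
    if_pos (Finset.mem_range.2 (Nat.lt_succ_self R))]
  ring

theorem single_term {R r : ℕ} (hr : r ≤ R) (w f : ℕ → ℝ) (hw : ∀ i, 0 ≤ w i) (hf : ∀ i, 0 ≤ f i) :
    w r * f r ≤ ∑ i ∈ Finset.range (R + 1), w i * f i :=
  Finset.single_le_sum (f := fun i => w i * f i) (fun i _ => mul_nonneg (hw i) (hf i))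
    (Finset.mem_range.2 (Nat.lt_succ_of_le hr))

theorem dom_single {n s r : ℕ} (hr : r ≤ s / 2) {G : Finset (Finset (Fin n))}
    (h : ∀ j, lev G j ≤ lev (fam n s r) j) :
    ∃ w : ℕ → ℝ, (∀ i, 0 ≤ w i) ∧ ∑ i ∈ Finset.range (s / 2 + 1), w i = 1 ∧
      ∀ j, (lev G j : ℝ) ≤ ∑ i ∈ Finset.range (s / 2 + 1), w i * (lev (fam n s i) j : ℝ) := by
  refine ⟨fun i => if i = r then 1 else 0, fun i => ?_, ?_, fun j => ?_⟩
  · simp only
    split_ifs <;> norm_num
  · rw [Finset.sum_ite_eq' (Finset.range (s / 2 + 1)) r,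
      if_pos (Finset.mem_range.2 (Nat.lt_succ_of_le hr))]
  · have h1 := single_term hr (fun i => if i = r then (1 : ℝ) else 0)
      (fun i => (lev (fam n s i) j : ℝ)) (fun i => by split_ifs <;> norm_num)
      (fun i => Nat.cast_nonneg _)
    simp only [if_true, one_mul] at h1
    refine le_trans ?_ h1
    exact_mod_cast h j

/-- **DOM.** -/
theorem dom {n s : ℕ} (h10 : 10 * s ^ 2 ≤ n) {G : Finset (Finset (Fin n))} (hG : Shifted G)
    (hU : UBd s G) :
    ∃ w : ℕ → ℝ, (∀ i, 0 ≤ w i) ∧ ∑ i ∈ Finset.range (s / 2 + 1), w i = 1 ∧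
      ∀ j, (lev G j : ℝ) ≤ ∑ i ∈ Finset.range (s / 2 + 1), w i * (lev (fam n s i) j : ℝ) := by
  have hsn := le_self_sq h10
  rcases G.eq_empty_or_nonempty with rfl | hne
  · refine dom_single (r := 0) (Nat.zero_le _) (fun j => ?_)
    exact lev_mono (Finset.empty_subset _) j
  obtain ⟨A, hA, hAmax⟩ := Finset.exists_max_image G (fun A => A.card) hne
  have hAs := hU A hA A hA
  rw [Finset.union_self] at hAs
  obtain ⟨rho, hrho⟩ : ∃ rho, A.card + rho = s := ⟨s - A.card, by omega⟩
  have hk : A.card = s - rho := by omega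
  have hmax : ∀ B ∈ G, (B \ tail n (s - rho)).card ≤ rho := by
    intro B hB
    have := outside_tail hG hU hA hk hB
    omega
  have hzero : ∀ j, s - rho < j → lev G j = 0 := by
    intro j hj
    rw [lev, Finset.card_eq_zero, Finset.filter_eq_empty_iff]
    intro B hB hBj
    have := hAmax B hB
    omega
  rcases Nat.lt_or_ge (2 * rho) s with h2 | h2
  · by_cases hsub : G ⊆ fam n s rho
    · exact dom_single (r := rho) (by omega) (fun j => lev_mono hsub j)
    · obtain ⟨B, hB, hBf⟩ := Finset.not_subset.1 hsub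
      rw [mem_fam, not_le] at hBf
      have hr1 : 1 ≤ rho := by
        by_contra hcon
        have h0 : rho = 0 := by omega
        subst h0
        have := hmax B hB
        simp only [Nat.mul_zero, Nat.sub_zero] at hBf this
        omega
      refine ⟨cw rho (s / 2), cw_nonneg _ _, cw_sum _ _, fun j => ?_⟩
      rcases Nat.lt_or_ge (s - rho) j with hj | hj
      · rw [hzero j hj]
        refine le_trans (le_of_eq Nat.cast_zero) (Finset.sum_nonneg (fun i _ => ?_))
        exact mul_nonneg (cw_nonneg _ _ _) (Nat.cast_nonneg _)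
      rcases Nat.lt_or_ge rho j with hj1 | hj1
      · rcases Nat.lt_or_ge (s / 2) j with hj2 | hj2
        · obtain ⟨r, rfl⟩ : ∃ r, j = s - r := ⟨s - j, by omega⟩
          have hrs : 2 * (s - (s - r)) ≤ s := by omega
          obtain ⟨r', hr'⟩ : ∃ r', r' = s - (s - r) := ⟨_, rfl⟩
          have hjr : s - r = s - r' := by omega
          rw [← hr'] at hrs
          rw [hjr]
          have hN := hN_of (r := r') (by omega) hrs h10
          have h3 := single_term (R := s / 2) (r := r') (by omega) (cw rho (s / 2))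
            (fun i => (lev (fam n s i) (s - r') : ℝ)) (cw_nonneg _ _) (fun i => Nat.cast_nonneg _)
          refine le_trans ?_ h3
          rw [lev_fam_top hrs hsn]
          have h4 : (0 : ℝ) ≤ ((n - s + 2 * r').choose r' : ℝ) := Nat.cast_nonneg _
          have h5 := cw_ge rho (s / 2) r'
          have h6 : gw rho r' = 2 / 5 * (1 / 2) ^ (r' - rho) := if_pos (by omega)
          rw [h6] at h5
          refine le_trans ?_ (mul_le_mul_of_nonneg_right h5 h4)
          rcases Nat.lt_or_ge rho r' with hr2 | hr2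
          · exact mid_level hsn hrs hr2 hN hG hU hmax
          · have hr3 : r' = rho := by omega
            rw [hr3] at hN ⊢
            rw [Nat.sub_self, pow_zero, mul_one]
            exact top_level hsn h2.le hr1 hN hG hU hmax hB hBf
        · have h3 := single_term (R := s / 2) (r := s / 2) le_rfl (cw rho (s / 2))
            (fun i => (lev (fam n s i) j : ℝ)) (cw_nonneg _ _) (fun i => Nat.cast_nonneg _)
          refine le_trans ?_ h3
          rw [lev_fam_low hj2]
          refine le_trans (low_level h10 hj1 (by omega) hmax) ?_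
          exact mul_le_mul_of_nonneg_right (cw_last _ _) (Nat.cast_nonneg _)
      · have h3 : ∑ i ∈ Finset.range (s / 2 + 1), cw rho (s / 2) i * (lev (fam n s i) j : ℝ) =
            ∑ i ∈ Finset.range (s / 2 + 1), cw rho (s / 2) i * (n.choose j : ℝ) := by
          refine Finset.sum_congr rfl (fun i hi => ?_)
          rw [Finset.mem_range] at hi
          rcases Nat.lt_or_ge i rho with hir | hir
          · have : cw rho (s / 2) i = 0 := by
              unfold cw gw
              rw [if_neg (by omega), if_neg (by omega), add_zero]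
            rw [this, zero_mul, zero_mul]
          · rw [lev_fam_low (by omega)]
        rw [h3, ← Finset.sum_mul, cw_sum, one_mul]
        exact_mod_cast lev_le_choose G j
  · refine dom_single (r := s / 2) le_rfl (fun j => ?_)
    rcases Nat.lt_or_ge (s - rho) j with hj | hj
    · rw [hzero j hj]
      exact Nat.zero_le _
    · rw [lev_fam_low (by omega)]
      exact lev_le_choose G j

/-- **PHISEP.** -/
theorem fam_sep {n s r r' : ℕ} (h10 : 10 * s ^ 2 ≤ n) (hr : 2 * r ≤ s) (hr' : 2 * r' ≤ s)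
    (hne : r' ≠ r) : lev (fam n s r') (s - r) < lev (fam n s r) (s - r) := by
  have hsn := le_self_sq h10
  have hpos : 0 < (n - s + 2 * r).choose r := Nat.choose_pos (by omega)
  rw [lev_fam_top hr hsn]
  rcases Nat.lt_or_ge r' r with h | h
  · have hN := hN_of (r := r) (by omega) hr h10
    have h1 := cnt_real (n := n) (s := s) (i := r') (r := r) (m := s - 2 * r') (a := r') hr' h.le hr
      le_rfl (by omega) hsn h.le hN ((fam n s r').filter (fun A => A.card = s - r)) (by
        intro A hA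
        rw [Finset.mem_filter, mem_fam] at hA
        exact ⟨hA.2, hA.1, hA.1⟩)
    obtain ⟨u, hu⟩ : ∃ u, r - r' = u + 1 := ⟨r - r' - 1, by omega⟩
    have h2 : (1 / 12 : ℝ) ^ (r - r') ≤ 1 / 12 := by
      rw [hu, pow_succ]
      have : (1 / 12 : ℝ) ^ u ≤ 1 := pow_le_one₀ (by norm_num) (by norm_num)
      linarith
    have h3 : (0 : ℝ) < ((n - s + 2 * r).choose r : ℝ) := by exact_mod_cast hpos
    have h4 : ((lev (fam n s r') (s - r) : ℕ) : ℝ) < ((n - s + 2 * r).choose r : ℝ) := by
      refine lt_of_le_of_lt h1 ?_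
      nlinarith
    exact_mod_cast h4
  · rw [lev_fam_zero hr' hsn (by omega)]
    exact hpos

end Pool.Agent.ProfEP
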