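import Pool.Agent.Lib_MP_05ae4a_ep.Defs

/-! # Shifting, and the structure of shifted families with bounded unions -/

namespace Pool.Agent.ProfEP

/-- the shift of one set -/
def sft {n : ℕ} (x y : Fin n) (A : Finset (Fin n)) : Finset (Fin n) :=
  if x ∈ A ∧ y ∉ A then insert y (A.erase x) else A

theorem sft_pos {n : ℕ} {x y : Fin n} {A : Finset (Fin n)} (h : x ∈ A ∧ y ∉ A) :
    sft x y A = insert y (A.erase x) := if_pos h

theorem card_sft {n : ℕ} (x y : Fin n) (A : Finset (Fin n)) : (sft x y A).card = A.card := by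
  unfold sft
  split_ifs with h
  · rw [Finset.card_insert_of_notMem (fun hh => h.2 (Finset.mem_of_mem_erase hh)),
      Finset.card_erase_add_one h.1]
  · rfl

/-- the move of the members of the family -/
def mv {n : ℕ} (G : Finset (Finset (Fin n))) (x y : Fin n) (A : Finset (Fin n)) :
    Finset (Fin n) := if sft x y A ∈ G then A else sft x y A

theorem card_mv {n : ℕ} (G : Finset (Finset (Fin n))) (x y : Fin n) (A : Finset (Fin n)) :
    (mv G x y A).card = A.card := by
  unfold mv
  split_ifs
  · rfl
  · exact card_sft x y A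

theorem sft_cond {n : ℕ} {G : Finset (Finset (Fin n))} {x y : Fin n} {A : Finset (Fin n)}
    (hA : A ∈ G) (h : sft x y A ∉ G) : x ∈ A ∧ y ∉ A := by
  by_contra hc
  rw [sft, if_neg hc] at h
  exact h hA

theorem mv_injOn {n : ℕ} (G : Finset (Finset (Fin n))) (x y : Fin n) :
    Set.InjOn (mv G x y) (G : Set (Finset (Fin n))) := by
  intro A hA B hB hAB
  rw [Finset.mem_coe] at hA hB
  unfold mv at hAB
  split_ifs at hAB with h1 h2 h2
  · exact hAB
  · rw [hAB] at hA
    exact absurd hA h2
  · rw [← hAB] at hB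
    exact absurd hB h1
  · have ha := sft_cond hA h1
    have hb := sft_cond hB h2
    rw [sft_pos ha, sft_pos hb] at hAB
    ext z
    by_cases hzx : z = x
    · rw [hzx]
      exact ⟨fun _ => hb.1, fun _ => ha.1⟩
    · by_cases hzy : z = y
      · rw [hzy]
        exact ⟨fun h => absurd h ha.2, fun h => absurd h hb.2⟩
      · have := Finset.ext_iff.1 hAB z
        simpa [Finset.mem_insert, Finset.mem_erase, hzx, hzy] using this

theorem union_sft {n : ℕ} {s : ℕ} {G : Finset (Finset (Fin n))} (hG : UBd s G) {x y : Fin n}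
    {A B : Finset (Fin n)} (hA : A ∈ G) (hB : B ∈ G) (h1 : sft x y A ∉ G) (h2 : sft x y B ∈ G) :
    (sft x y A ∪ B).card ≤ s := by
  have ha := sft_cond hA h1
  rw [sft_pos ha]
  have hAB := hG A hA B hB
  by_cases hyB : y ∈ B
  · refine le_trans (Finset.card_le_card ?_) hAB
    intro z hz
    simp only [Finset.mem_union, Finset.mem_insert, Finset.mem_erase] at hz ⊢
    rcases hz with (rfl | hz) | hz
    · exact Or.inr hyB
    · exact Or.inl hz.2
    · exact Or.inr hz
  · by_cases hxB : x ∈ B
    · rw [sft_pos ⟨hxB, hyB⟩] at h2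
      refine le_trans (Finset.card_le_card ?_) (hG A hA _ h2)
      intro z hz
      simp only [Finset.mem_union, Finset.mem_insert, Finset.mem_erase] at hz ⊢
      rcases hz with (rfl | hz) | hz
      · exact Or.inr (Or.inl rfl)
      · exact Or.inl hz.2
      · by_cases hzx : z = x
        · exact Or.inl (hzx ▸ ha.1)
        · exact Or.inr (Or.inr ⟨hzx, hz⟩)
    · have hxu : x ∈ A ∪ B := Finset.mem_union_left _ ha.1
      have hyu : y ∉ (A ∪ B).erase x := by
        intro h
        rcases Finset.mem_union.1 (Finset.mem_of_mem_erase h) with h | h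
        · exact ha.2 h
        · exact hyB h
      have heq : insert y (A.erase x) ∪ B = insert y ((A ∪ B).erase x) := by
        ext z
        simp only [Finset.mem_union, Finset.mem_insert, Finset.mem_erase]
        constructor
        · rintro ((rfl | hz) | hz)
          · exact Or.inl rfl
          · exact Or.inr ⟨hz.1, Or.inl hz.2⟩
          · exact Or.inr ⟨fun h => hxB (h ▸ hz), Or.inr hz⟩
        · rintro (rfl | ⟨hz1, hz | hz⟩)
          · exact Or.inl (Or.inl rfl)
          · exact Or.inl (Or.inr ⟨hz1, hz⟩)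
          · exact Or.inr hz
      rw [heq, Finset.card_insert_of_notMem hyu, Finset.card_erase_add_one hxu]
      exact hAB

theorem union_sft_sft {n : ℕ} {s : ℕ} {G : Finset (Finset (Fin n))} (hG : UBd s G) {x y : Fin n}
    {A B : Finset (Fin n)} (hA : A ∈ G) (hB : B ∈ G) (h1 : sft x y A ∉ G) (h2 : sft x y B ∉ G) :
    (sft x y A ∪ sft x y B).card ≤ s := by
  have ha := sft_cond hA h1
  have hb := sft_cond hB h2
  rw [sft_pos ha, sft_pos hb]
  have hAB := hG A hA B hB
  have hxu : x ∈ A ∪ B := Finset.mem_union_left _ ha.1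
  have hyu : y ∉ (A ∪ B).erase x := by
    intro h
    rcases Finset.mem_union.1 (Finset.mem_of_mem_erase h) with h | h
    · exact ha.2 h
    · exact hb.2 h
  have heq : insert y (A.erase x) ∪ insert y (B.erase x) = insert y ((A ∪ B).erase x) := by
    ext z
    simp only [Finset.mem_union, Finset.mem_insert, Finset.mem_erase]
    tauto
  rw [heq, Finset.card_insert_of_notMem hyu, Finset.card_erase_add_one hxu]
  exact hAB

theorem ubd_mv {n : ℕ} {s : ℕ} {G : Finset (Finset (Fin n))} (hG : UBd s G) (x y : Fin n) :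
    UBd s (G.image (mv G x y)) := by
  intro A' hA' B' hB'
  obtain ⟨A, hA, rfl⟩ := Finset.mem_image.1 hA'
  obtain ⟨B, hB, rfl⟩ := Finset.mem_image.1 hB'
  unfold mv
  split_ifs with h1 h2 h2
  · exact hG A hA B hB
  · rw [Finset.union_comm]
    exact union_sft hG hB hA h2 h1
  · exact union_sft hG hA hB h1 h2
  · exact union_sft_sft hG hA hB h1 h2

theorem lev_mv {n : ℕ} (G : Finset (Finset (Fin n))) (x y : Fin n) (j : ℕ) :
    lev (G.image (mv G x y)) j = lev G j := by
  have h : (G.image (mv G x y)).filter (fun A => A.card = j) =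
      (G.filter (fun A => A.card = j)).image (mv G x y) := by
    ext A
    simp only [Finset.mem_filter, Finset.mem_image]
    constructor
    · rintro ⟨⟨B, hB, rfl⟩, hj⟩
      exact ⟨B, ⟨hB, by rwa [card_mv] at hj⟩, rfl⟩
    · rintro ⟨B, ⟨hB, hj⟩, rfl⟩
      exact ⟨⟨B, hB, rfl⟩, by rwa [card_mv]⟩
  rw [lev, h, Finset.card_image_of_injOn, lev]
  intro A hA B hB
  exact mv_injOn G x y (Finset.mem_of_mem_filter A hA) (Finset.mem_of_mem_filter B hB)

/-- the weight of a set -/
def wt {n : ℕ} (A : Finset (Fin n)) : ℕ := ∑ z ∈ A, (z : ℕ)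

theorem wt_sft {n : ℕ} {x y : Fin n} (hxy : x < y) {A : Finset (Fin n)} (h : x ∈ A ∧ y ∉ A) :
    wt A < wt (sft x y A) := by
  rw [sft_pos h, wt, wt, Finset.sum_insert (fun hh => h.2 (Finset.mem_of_mem_erase hh))]
  have h1 := Finset.add_sum_erase A (fun z : Fin n => (z : ℕ)) h.1
  have h2 : (x : ℕ) < y := hxy
  omega

theorem wt_mv {n : ℕ} {G : Finset (Finset (Fin n))} {x y : Fin n} (hxy : x < y)
    {A : Finset (Fin n)} (hA : A ∈ G) : wt A ≤ wt (mv G x y A) := by
  unfold mv
  split_ifs with h
  · exact le_rfl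
  · exact (wt_sft hxy (sft_cond hA h)).le

/-- **SHIFT.** -/
theorem exists_shifted {n s : ℕ} (G : Finset (Finset (Fin n))) (hG : UBd s G) :
    ∃ H : Finset (Finset (Fin n)), Shifted H ∧ UBd s H ∧ ∀ j, lev H j = lev G j := by
  classical
  let S : Finset (Finset (Finset (Fin n))) :=
    Finset.univ.filter (fun H => UBd s H ∧ ∀ j, lev H j = lev G j)
  have hS : S.Nonempty := ⟨G, Finset.mem_filter.2 ⟨Finset.mem_univ _, hG, fun _ => rfl⟩⟩
  obtain ⟨H, hH, hmax⟩ := Finset.exists_max_image S (fun H => ∑ A ∈ H, wt A) hS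
  simp only [S, Finset.mem_filter, Finset.mem_univ, true_and] at hH
  refine ⟨H, ?_, hH.1, hH.2⟩
  intro A hA x hx y hy hxy
  by_contra hc
  have hcond : x ∈ A ∧ y ∉ A := ⟨hx, hy⟩
  have hc' : sft x y A ∉ H := by rwa [sft_pos hcond]
  have hmem : H.image (mv H x y) ∈ S := by
    simp only [S, Finset.mem_filter, Finset.mem_univ, true_and]
    exact ⟨ubd_mv hH.1 x y, fun j => by rw [lev_mv, hH.2]⟩
  have h1 := hmax _ hmem
  rw [Finset.sum_image (fun a ha b hb => mv_injOn H x y ha hb)] at h1
  have h2 : ∑ A ∈ H, wt A < ∑ A ∈ H, wt (mv H x y A) := by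
    refine Finset.sum_lt_sum (fun B hB => wt_mv hxy hB) ⟨A, hA, ?_⟩
    have : mv H x y A = sft x y A := if_neg hc'
    rw [this]
    exact wt_sft hxy hcond
  omega

/-- **MATCH.** -/
theorem match_up {n : ℕ} {G : Finset (Finset (Fin n))} (hG : Shifted G) :
    ∀ (c : ℕ) (A V M : Finset (Fin n)), M.card = c → A ∈ G → V ⊆ A → Disjoint M A →
      (∀ m ∈ M, (M.filter (fun m' => m' ≤ m)).card ≤ (V.filter (fun x => x < m)).card) →
      ∃ B ∈ G, B.card = A.card ∧ M ⊆ B ∧ A \ V ⊆ B := by
  intro c
  induction c with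
  | zero =>
    intro A V M hM hA _ _ _
    rw [Finset.card_eq_zero] at hM
    exact ⟨A, hA, rfl, by rw [hM]; exact Finset.empty_subset _, Finset.sdiff_subset⟩
  | succ c ih =>
    intro A V M hM hA hV hd hcond
    have hne : M.Nonempty := by
      rw [← Finset.card_pos]
      omega
    obtain ⟨m0, hm0⟩ : ∃ m0, m0 = M.min' hne := ⟨_, rfl⟩
    have hm0M : m0 ∈ M := hm0 ▸ Finset.min'_mem M hne
    have hmin : ∀ m ∈ M, m0 ≤ m := fun m hm => hm0 ▸ Finset.min'_le M m hm
    have h1 := hcond m0 hm0M
    have h2 : 0 < (M.filter (fun m' => m' ≤ m0)).card :=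
      Finset.card_pos.2 ⟨m0, Finset.mem_filter.2 ⟨hm0M, le_rfl⟩⟩
    obtain ⟨x, hx⟩ := Finset.card_pos.1 (lt_of_lt_of_le h2 h1)
    rw [Finset.mem_filter] at hx
    have hxA : x ∈ A := hV hx.1
    have hm0A : m0 ∉ A := Finset.disjoint_left.1 hd hm0M
    have hA1 := hG A hA x hxA m0 hm0A hx.2
    obtain ⟨B, hB, hBc, hMB, hVB⟩ := ih (insert m0 (A.erase x)) (V.erase x) (M.erase m0)
      (by rw [Finset.card_erase_of_mem hm0M, hM]; rfl) hA1
      (fun z hz => Finset.mem_insert_of_mem (Finset.mem_erase.2
        ⟨(Finset.mem_erase.1 hz).1, hV (Finset.mem_erase.1 hz).2⟩))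
      (by
        rw [Finset.disjoint_left]
        intro z hz hz'
        rw [Finset.mem_erase] at hz
        rw [Finset.mem_insert, Finset.mem_erase] at hz'
        rcases hz' with hz' | hz'
        · exact hz.1 hz'
        · exact Finset.disjoint_left.1 hd hz.2 hz'.2)
      (by
        intro m hm
        rw [Finset.mem_erase] at hm
        have hlt : m0 < m := lt_of_le_of_ne (hmin m hm.2) (Ne.symm hm.1)
        have h3 := hcond m hm.2
        have h4 : (M.erase m0).filter (fun m' => m' ≤ m) = (M.filter (fun m' => m' ≤ m)).erase m0 := by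
          ext z
          simp only [Finset.mem_filter, Finset.mem_erase]
          tauto
        have h5 : (V.erase x).filter (fun z => z < m) = (V.filter (fun z => z < m)).erase x := by
          ext z
          simp only [Finset.mem_filter, Finset.mem_erase]
          tauto
        have h6 : m0 ∈ M.filter (fun m' => m' ≤ m) := Finset.mem_filter.2 ⟨hm0M, hlt.le⟩
        have h7 : x ∈ V.filter (fun z => z < m) :=
          Finset.mem_filter.2 ⟨hx.1, lt_trans hx.2 hlt⟩
        rw [h4, h5, Finset.card_erase_of_mem h6, Finset.card_erase_of_mem h7]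
        omega)
    refine ⟨B, hB, ?_, ?_, ?_⟩
    · rw [hBc, Finset.card_insert_of_notMem (fun hh => hm0A (Finset.mem_of_mem_erase hh)),
        Finset.card_erase_add_one hxA]
    · intro z hz
      by_cases hzm : z = m0
      · rw [hzm]
        refine hVB (Finset.mem_sdiff.2 ⟨Finset.mem_insert_self _ _, fun hh => ?_⟩)
        exact hm0A (hV (Finset.mem_of_mem_erase hh))
      · exact hMB (Finset.mem_erase.2 ⟨hzm, hz⟩)
    · intro z hz
      rw [Finset.mem_sdiff] at hz
      refine hVB (Finset.mem_sdiff.2 ⟨?_, fun hh => hz.2 (Finset.mem_of_mem_erase hh)⟩)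
      refine Finset.mem_insert_of_mem (Finset.mem_erase.2 ⟨fun hh => hz.2 ?_, hz.1⟩)
      rw [hh]
      exact hx.1

/-- the tail of length `k` belongs to the family as soon as some `k`-set does -/
theorem tail_mem {n k : ℕ} {G : Finset (Finset (Fin n))} (hG : Shifted G)
    {A : Finset (Fin n)} (hA : A ∈ G) (hk : A.card = k) : tail n k ∈ G := by
  have hkn : k ≤ n := by
    have := Finset.card_le_univ A
    rw [Fintype.card_fin] at this
    omega
  have ht := card_tail hkn
  have h1 := card_split A (tail n k)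
  have h2 := card_split (tail n k) A
  rw [Finset.inter_comm] at h2
  obtain ⟨B, hB, hBc, hMB, hVB⟩ := match_up hG _ A (A \ tail n k) (tail n k \ A) rfl hA
    Finset.sdiff_subset Finset.sdiff_disjoint (by
      intro m hm
      rw [Finset.mem_sdiff, mem_tail] at hm
      have h3 : (A \ tail n k).filter (fun x => x < m) = A \ tail n k := by
        rw [Finset.filter_eq_self]
        intro x hx
        rw [Finset.mem_sdiff, mem_tail] at hx
        have : (x : ℕ) < m := by omega
        exact this
      rw [h3]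
      refine le_trans (Finset.card_filter_le _ _) ?_
      omega)
  have hsub : tail n k ⊆ B := by
    intro x hx
    by_cases hxA : x ∈ A
    · exact hVB (Finset.mem_sdiff.2 ⟨hxA, fun hh => (Finset.mem_sdiff.1 hh).2 hx⟩)
    · exact hMB (Finset.mem_sdiff.2 ⟨hx, hxA⟩)
  have := Finset.eq_of_subset_of_card_le hsub (by omega)
  rw [this]
  exact hB

theorem outside_tail {n s k : ℕ} {G : Finset (Finset (Fin n))} (hG : Shifted G) (hU : UBd s G)
    {A : Finset (Fin n)} (hA : A ∈ G) (hk : A.card = k) {B : Finset (Fin n)} (hB : B ∈ G) :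
    (B \ tail n k).card + k ≤ s := by
  have h1 := hU B hB _ (tail_mem hG hA hk)
  have hkn : k ≤ n := by
    have := Finset.card_le_univ A
    rw [Fintype.card_fin] at this
    omega
  rw [← Finset.card_sdiff_add_card, card_tail hkn] at h1
  exact h1

theorem exists_top_seg {n : ℕ} (C : Finset (Fin n)) : ∀ j ≤ C.card, ∃ M ⊆ C, M.card = j ∧
    ∀ m ∈ M, ∀ c ∈ C, m < c → c ∈ M := by
  intro j
  induction j with
  | zero =>
    intro _
    exact ⟨∅, Finset.empty_subset _, rfl, fun m hm => absurd hm (Finset.notMem_empty m)⟩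
  | succ j ih =>
    intro hj
    obtain ⟨M, hMC, hMc, hM⟩ := ih (by omega)
    have hne : (C \ M).Nonempty := by
      rw [← Finset.card_pos, Finset.card_sdiff_of_subset hMC]
      omega
    have hz := Finset.max'_mem (C \ M) hne
    rw [Finset.mem_sdiff] at hz
    refine ⟨insert ((C \ M).max' hne) M, ?_, ?_, ?_⟩
    · intro x hx
      rcases Finset.mem_insert.1 hx with rfl | hx
      · exact hz.1
      · exact hMC hx
    · rw [Finset.card_insert_of_notMem hz.2, hMc]
    · intro m hm c hc hmc
      rcases Finset.mem_insert.1 hm with rfl | hm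
      · by_contra hcc
        rw [Finset.mem_insert, not_or] at hcc
        have := Finset.le_max' (C \ M) c (Finset.mem_sdiff.2 ⟨hc, hcc.2⟩)
        exact absurd hmc (not_lt.2 this)
      · exact Finset.mem_insert_of_mem (hM m hm c hc hmc)

/-- **FRANKL.** Every member of a shifted family with unions at most `s` lies in some `fam i`. -/
theorem exists_index {n s : ℕ} (hs : s ≤ n) {G : Finset (Finset (Fin n))} (hG : Shifted G)
    (hU : UBd s G) {A : Finset (Fin n)} (hA : A ∈ G) : ∃ i, 2 * i ≤ s ∧ A ∈ fam n s i := by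
  have hAs := hU A hA A hA
  rw [Finset.union_self] at hAs
  rcases Nat.lt_or_ge s n with hsn | hsn
  · have hcc : (Aᶜ).card = n - A.card := by rw [Finset.card_compl, Fintype.card_fin]
    obtain ⟨M, hMC, hMc, hM⟩ := exists_top_seg Aᶜ (s + 1 - A.card) (by omega)
    have hd : Disjoint M A := by
      rw [Finset.disjoint_left]
      intro x hx
      exact Finset.mem_compl.1 (hMC hx)
    by_cases hcond : ∀ m ∈ M, (M.filter (fun m' => m' ≤ m)).card ≤ (A.filter (fun x => x < m)).card
    · exfalso
      obtain ⟨B, hB, hBc, hMB, -⟩ := match_up hG _ A A M rfl hA (Finset.Subset.refl _) hd hcond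
      have h1 := hU A hA B hB
      have h2 : A ∪ M ⊆ A ∪ B := Finset.union_subset_union_right hMB
      have h3 := Finset.card_le_card h2
      rw [Finset.card_union_of_disjoint hd.symm] at h3
      omega
    · push Not at hcond
      obtain ⟨m, hm, hlt⟩ := hcond
      have hmA : m ∉ A := Finset.disjoint_left.1 hd hm
      have e1 : (A.filter (fun x => x < m)).card + (A.filter (fun x => ¬ x < m)).card = A.card :=
        Finset.card_filter_add_card_filter_not _
      have e2 : (M.filter (fun x => x ≤ m)).card + (M.filter (fun x => ¬ x ≤ m)).card = M.card :=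
        Finset.card_filter_add_card_filter_not _
      have e3 : (Finset.Ioi m).card = n - 1 - m := by
        simp
      have e4 : A.filter (fun x => ¬ x < m) ∪ M.filter (fun x => ¬ x ≤ m) = Finset.Ioi m := by
        ext z
        simp only [Finset.mem_union, Finset.mem_filter, Finset.mem_Ioi, not_lt, not_le]
        constructor
        · rintro (⟨h1, h2⟩ | ⟨_, h2⟩)
          · exact lt_of_le_of_ne h2 (fun hh => hmA (hh ▸ h1))
          · exact h2
        · intro hz
          by_cases hzA : z ∈ A
          · exact Or.inl ⟨hzA, hz.le⟩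
          · exact Or.inr ⟨hM m hm z (Finset.mem_compl.2 hzA) hz, hz⟩
      have e5 : Disjoint (A.filter (fun x => ¬ x < m)) (M.filter (fun x => ¬ x ≤ m)) := by
        rw [Finset.disjoint_left]
        intro z hz hz'
        exact Finset.disjoint_left.1 hd (Finset.mem_filter.1 hz').1 (Finset.mem_filter.1 hz).1
      have e6 := Finset.card_union_of_disjoint e5
      rw [e4, e3] at e6
      refine ⟨(A.filter (fun x => x < m)).card, by omega, ?_⟩
      rw [mem_fam]
      refine Finset.card_le_card ?_
      intro x hx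
      rw [Finset.mem_sdiff, mem_tail] at hx
      rw [Finset.mem_filter]
      refine ⟨hx.1, ?_⟩
      by_contra hxm
      have hne : (x : ℕ) ≠ m := fun hh => hmA ((Fin.ext hh : x = m) ▸ hx.1)
      have hle : (m : ℕ) ≤ x := not_lt.1 hxm
      have := m.2
      omega
  · refine ⟨0, by omega, ?_⟩
    rw [mem_fam]
    have : tail n (s - 2 * 0) = Finset.univ := by
      ext x
      rw [mem_tail]
      simp only [Finset.mem_univ, iff_true]
      omega
    rw [this]
    simp

end Pool.Agent.ProfEP
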